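import Pool.Agent.Q149.FTc

/-!
# MP_582e6d_pr, Q1: playing the mother first is optimal for the father

`winner a b c X f m s : PMF Player` (module `Pool.Agent.Q149.FTb`) is the law of the winner of the
tournament when the next game is `X` and the players `F`, `M`, `S` still need `f`, `m`, `s` won
games: a coin with probability `a`, `b`, `c` decides the games `FM`, `FS`, `MS`, the winner of a
game next plays the player who sat out.
-/

namespace Pool.Agent.Results.MP_582e6d_pr.MotherFirst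

open Pool.Agent.Q149.FT

/-- `P_N(X; a, b, c)`: the probability that `F` wins the first-to-`N` tournament which starts with
the game `X`. -/
noncomputable def P (N : ℕ) (X : Pairing) (a b c : ℝ) : ℝ :=
  (winner a b c X N N N Player.F).toReal

/-- (1) For every `N ≥ 1` and all `a, b, c ∈ (0, 1)` with the strength convention
`a, b, c < 1/2`, `b ≤ a`, the first game `FM` is optimal for `F`.
(2) The same holds for all `a, b, c ∈ (0, 1)` with `b ≤ a` and `c (1 - a) ≤ (1 - c) (1 - b)`. -/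
theorem result :
    (∀ N : ℕ, 1 ≤ N → ∀ a b c : ℝ, 0 < a → 0 < b → 0 < c → a < 1 / 2 → b < 1 / 2 → c < 1 / 2 →
      b ≤ a →
      P N Pairing.FS a b c ≤ P N Pairing.FM a b c ∧ P N Pairing.MS a b c ≤ P N Pairing.FM a b c) ∧
    (∀ N : ℕ, 1 ≤ N → ∀ a b c : ℝ, 0 < a → 0 < b → 0 < c → a < 1 → b < 1 → c < 1 →
      b ≤ a → c * (1 - a) ≤ (1 - c) * (1 - b) →
      P N Pairing.FS a b c ≤ P N Pairing.FM a b c ∧ P N Pairing.MS a b c ≤ P N Pairing.FM a b c) := by
  have main : ∀ N : ℕ, 1 ≤ N → ∀ a b c : ℝ, 0 < a → 0 < b → 0 < c → a < 1 → b < 1 → c < 1 →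
      b ≤ a → c * (1 - a) ≤ (1 - c) * (1 - b) →
      P N Pairing.FS a b c ≤ P N Pairing.FM a b c ∧
        P N Pairing.MS a b c ≤ P N Pairing.FM a b c := by
    intro N hN a b c ha hb hc ha1 hb1 hc1 hba hs
    obtain ⟨n, rfl⟩ : ∃ n, N = n + 1 := ⟨N - 1, by omega⟩
    exact ⟨FS_le_FM ha ha1 hb hb1 hc hc1 hba hs n, MS_le_FM ha ha1 hb hb1 hc hc1 hba hs n⟩
  refine ⟨?_, main⟩
  intro N hN a b c ha hb hc ha2 hb2 hc2 hba
  exact main N hN a b c ha hb hc (by linarith) (by linarith) (by linarith) hba (by nlinarith)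

end Pool.Agent.Results.MP_582e6d_pr.MotherFirst
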